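import Pool.Agent.MP_82b037_lc.H62.Alg

set_option autoImplicit false

namespace Pool.Agent.Results.MP_82b037_lc.InP

/-- `f` is a star colouring of `G`: it is proper and no path on four vertices is bicoloured. -/
def IsStarColouring {V C : Type} (G : SimpleGraph V) (f : V → C) : Prop :=
  (∀ u v, G.Adj u v → f u ≠ f v) ∧
  ∀ a b c d, G.Adj a b → G.Adj b c → G.Adj c d → a ≠ c → b ≠ d → a ≠ d → ¬ (f a = f c ∧ f b = f d)

/-- A deterministic polynomial time machine decides star 5-colourability of 3-regular graphs, given by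
the number of vertices and a list of the edges. -/
theorem result : ∃ A : ℕ × List (ℕ × ℕ) → Bool, N68a2faeb.IsPolyTime A ∧
    ∀ (n : ℕ) (G : SimpleGraph (Fin n)) [DecidableRel G.Adj] (E : List (ℕ × ℕ)),
      G.IsRegularOfDegree 3 →
      (∀ u v : Fin n, G.Adj u v ↔ ((u.val, v.val) ∈ E ∨ (v.val, u.val) ∈ E)) →
      (∀ e ∈ E, e.1 < n ∧ e.2 < n) →
      (A (n, E) = true ↔ ∃ f : Fin n → Fin 5, IsStarColouring G f) := by
  refine ⟨Pool.Agent.MP_82b037_lc.H62.alg, Pool.Agent.MP_82b037_lc.H62.pt_alg.isPolyTime, ?_⟩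
  intro n G _ E hG hE hb
  rw [Pool.Agent.MP_82b037_lc.H62.alg_iff G E hE hb]
  constructor
  · intro hW
    obtain ⟨f, h1, h2⟩ := Pool.Agent.MP_82b037_lc.H62.star_five hG hW
    exact ⟨f, fun u v h => h1 u v trivial trivial h, fun a b c d p1 p2 p3 n1 n2 _ e =>
      h2 a b c d trivial trivial trivial trivial p1 p2 p3 n1 n2 e.1 e.2⟩
  · rintro ⟨f, h1, h2⟩ hW
    exact Pool.Agent.MP_82b037_lc.H62.not_col hW f h1 h2

end Pool.Agent.Results.MP_82b037_lc.InP
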